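import Mathlib

/-!
# The polar space `PSU(4, q₀)` can be partitioned into ovoids, for every `q₀`

Let `h` be a non-degenerate Hermitian form on a four-dimensional space `V` over a field `F` with
`q₀ ^ 2` elements.  Then the Witt index is two and the point set of the polar space is a disjoint
union of ovoids (this is part (c) of the question, for the type `PSU(2r, q₀)` with `r = 2`).

Construction.  Take `p` with `h p p ≠ 0`, an isotropic `e ≠ 0` orthogonal to `p`, and `c` orthogonal
to `p` and `e`, not proportional to `e` (then `h c c ≠ 0`).  One ovoid is the set of the points in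
`p^⊥`.  The points outside `p^⊥` are `⟨p + w⟩` with `w ⊥ p`, `h w w = - h p p`; for `s` in `F` put
`c_s = c + s e` and let `O_s` be the set of the `⟨p + w⟩` with `w ⊥ c_s` or `w` proportional to
`c_s`.  Each `O_s` is an ovoid (`ovoid_c`), and each `w` belongs to exactly one `s`
(`cond_unique`).  In geometric terms: the lines `⟨p, w⟩` correspond to the secants `w^⊥` of the
Hermitian unital of `p^⊥`, the points `c_s` are the points other than `⟨e⟩` on the tangent line
of the unital at `⟨e⟩`, and the secants through `c_s` with the secant `c_s^⊥` are a parallel class of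
a resolution of the unital.
-/

set_option autoImplicit false

namespace Pool.Agent.Results.MP_017654_co.UnitaryPartition

open Module Submodule

variable {F V : Type*} [Field F] [AddCommGroup V] [Module F V]

/-- `h` is a non-degenerate Hermitian form on `V` with respect to `x ↦ σ x`. -/
structure IsHermitian (σ : F → F) (h : V → V → F) : Prop where
  add_left : ∀ x y z, h (x + y) z = h x z + h y z
  smul_left : ∀ (a : F) (x y : V), h (a • x) y = a * h x y
  conj : ∀ x y, h y x = σ (h x y)
  nondeg : ∀ x, (∀ y, h x y = 0) → x = 0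

/-- totally isotropic subspaces: the form vanishes identically -/
def TotIso (h : V → V → F) (U : Submodule F V) : Prop := ∀ x ∈ U, ∀ y ∈ U, h x y = 0

/-- points of the polar space: totally isotropic subspaces of dimension one -/
def IsPoint (h : V → V → F) (P : Submodule F V) : Prop := TotIso h P ∧ finrank F P = 1

/-- `h` has Witt index `r`: the largest dimension of a totally isotropic subspace is `r` -/
def HasWittIndex (h : V → V → F) (r : ℕ) : Prop :=
  (∃ U, TotIso h U ∧ finrank F U = r) ∧ ∀ U, TotIso h U → finrank F U ≤ r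

/-- an ovoid of the polar space of Witt index `r`: a set of points meeting (i.e. containing a
point of) every maximal subspace (totally isotropic of dimension `r`) in exactly one point -/
def IsOvoid (h : V → V → F) (r : ℕ) (O : Set (Submodule F V)) : Prop :=
  (∀ P ∈ O, IsPoint h P) ∧
    ∀ M, TotIso h M → finrank F M = r → ∃! P, P ∈ O ∧ P ≤ M

/-- a partition of the point set into ovoids -/
def IsOvoidPartition (h : V → V → F) (r : ℕ) (S : Set (Set (Submodule F V))) : Prop :=
  (∀ O ∈ S, IsOvoid h r O) ∧ ∀ P, IsPoint h P → ∃! O, O ∈ S ∧ P ∈ O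

section core

variable {σ : F →+* F} {h : V → V → F}

theorem add_right (H : IsHermitian σ h) (x y z : V) : h x (y + z) = h x y + h x z := by
  rw [H.conj (y + z) x, H.add_left, map_add, ← H.conj, ← H.conj]

theorem smul_right (H : IsHermitian σ h) (a : F) (x y : V) : h x (a • y) = σ a * h x y := by
  rw [H.conj (a • y) x, H.smul_left, map_mul, ← H.conj]

theorem zero_left (H : IsHermitian σ h) (y : V) : h 0 y = 0 := by
  have := H.smul_left 0 0 y
  simpa using this

theorem zero_right (H : IsHermitian σ h) (y : V) : h y 0 = 0 := by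
  have := smul_right H 0 y 0
  simpa using this

theorem neg_left (H : IsHermitian σ h) (x y : V) : h (-x) y = - h x y := by
  have := H.smul_left (-1) x y
  simpa using this

theorem neg_right (H : IsHermitian σ h) (x y : V) : h x (-y) = - h x y := by
  have := smul_right H (-1) x y
  simpa using this

theorem sub_left (H : IsHermitian σ h) (x y z : V) : h (x - y) z = h x z - h y z := by
  rw [sub_eq_add_neg, H.add_left, neg_left H, sub_eq_add_neg]

theorem sub_right (H : IsHermitian σ h) (x y z : V) : h x (y - z) = h x y - h x z := by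
  rw [sub_eq_add_neg, add_right H, neg_right H, sub_eq_add_neg]

theorem symm_zero (H : IsHermitian σ h) {x y : V} (e : h x y = 0) : h y x = 0 := by
  rw [H.conj x y, e, map_zero]

theorem fixed (H : IsHermitian σ h) (x : V) : σ (h x x) = h x x := (H.conj x x).symm

/-- the linear functional `h · u` -/
def lin (H : IsHermitian σ h) (u : V) : V →ₗ[F] F where
  toFun v := h v u
  map_add' x y := H.add_left x y u
  map_smul' a x := by simpa using H.smul_left a x u

@[simp] theorem lin_apply (H : IsHermitian σ h) (u v : V) : lin H u v = h v u := rfl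

variable [FiniteDimensional F V]

/-- two orthogonality conditions cut out a plane -/
theorem key2 (H : IsHermitian σ h) (hV : finrank F V = 4) {p e c w : V} (hp : h p p ≠ 0)
    (he : e ≠ 0) (hep : h e p = 0) (hcp : h c p = 0) (hce : h c e = 0)
    (hee : h e e = 0) (hc : ∀ a : F, c ≠ a • e) (hwp : h w p = 0) (hwe : h w e = 0) :
    ∃ b g : F, w = b • c + g • e := by
  classical
  set φ : V →ₗ[F] F × F := (lin H p).prod (lin H e) with hφ
  obtain ⟨y, hy⟩ : ∃ y, h y e ≠ 0 := by
    by_contra hcon
    push Not at hcon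
    exact he (H.nondeg e fun y => symm_zero H (hcon y))
  have hpe : h p e = 0 := symm_zero H hep
  have hsurj : Function.Surjective φ := by
    rintro ⟨α, β⟩
    refine ⟨((α - β / h y e * h y p) / h p p) • p + (β / h y e) • y, Prod.ext ?_ ?_⟩
    · change h (((α - β / h y e * h y p) / h p p) • p + (β / h y e) • y) p = α
      rw [H.add_left, H.smul_left, H.smul_left]
      field_simp
      ring
    · change h (((α - β / h y e * h y p) / h p p) • p + (β / h y e) • y) e = β
      rw [H.add_left, H.smul_left, H.smul_left, hpe]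
      field_simp
      ring
  have hker : finrank F (LinearMap.ker φ) = 2 := by
    have h1 := LinearMap.finrank_range_add_finrank_ker φ
    rw [LinearMap.range_eq_top.2 hsurj, finrank_top, hV, finrank_prod, finrank_self] at h1
    omega
  have hmem : ∀ x : V, x ∈ LinearMap.ker φ ↔ h x p = 0 ∧ h x e = 0 := by
    intro x
    rw [LinearMap.mem_ker]
    change (h x p, h x e) = (0, 0) ↔ _
    rw [Prod.mk.injEq]
  have hind : LinearIndependent F ![c, e] := by
    rw [LinearIndependent.pair_iff]
    intro s t hst
    have hs : s = 0 := by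
      by_contra hs
      refine hc (-(s⁻¹ * t)) ?_
      have : c = s⁻¹ • (s • c) := by rw [smul_smul, inv_mul_cancel₀ hs, one_smul]
      rw [this, eq_neg_of_add_eq_zero_left hst, smul_neg, smul_smul, neg_smul]
    refine ⟨hs, ?_⟩
    rw [hs, zero_smul, zero_add] at hst
    exact (smul_eq_zero.1 hst).resolve_right he
  have hspan : span F (Set.range ![c, e]) = LinearMap.ker φ := by
    apply Submodule.eq_of_le_of_finrank_eq
    · rw [span_le]
      rintro _ ⟨i, rfl⟩
      fin_cases i
      · exact (hmem c).2 ⟨hcp, hce⟩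
      · exact (hmem e).2 ⟨hep, hee⟩
    · rw [hker, finrank_span_eq_card hind]
      simp
  have hw : w ∈ span F (Set.range ![c, e]) := by
    rw [hspan]
    exact (hmem w).2 ⟨hwp, hwe⟩
  rw [Matrix.range_cons, Matrix.range_cons, Matrix.range_empty, Set.union_empty,
    Set.singleton_union, mem_span_pair] at hw
  obtain ⟨a, b, hab⟩ := hw
  exact ⟨a, b, hab.symm⟩

/-- orthogonal isotropic vectors of `p^⊥` are proportional -/
theorem key1 (H : IsHermitian σ h) (hσ : ∀ x, σ (σ x) = x) (hV : finrank F V = 4) {p e x : V}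
    (hp : h p p ≠ 0)
    (he : e ≠ 0) (hep : h e p = 0) (hee : h e e = 0) (hxp : h x p = 0) (hxe : h x e = 0)
    (hxx : h x x = 0) : ∃ a : F, x = a • e := by
  by_contra hcon
  push Not at hcon
  obtain ⟨y, hy⟩ : ∃ y, h y e ≠ 0 := by
    by_contra hcon
    push Not at hcon
    exact he (H.nondeg e fun y => symm_zero H (hcon y))
  have hpe : h p e = 0 := symm_zero H hep
  have hpx : h p x = 0 := symm_zero H hxp
  have hex : h e x = 0 := symm_zero H hxe
  set v := y - (h y p / h p p) • p with hv
  have hve : h v e = h y e := by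
    rw [hv, sub_left H, H.smul_left, hpe, mul_zero, sub_zero]
  have hvp : h v p = 0 := by
    rw [hv, sub_left H, H.smul_left]
    field_simp
    ring
  set l := h v x / h v e with hl
  have hve0 : h v e ≠ 0 := by rw [hve]; exact hy
  have hz : x - σ l • e = 0 := by
    apply H.nondeg
    intro z
    apply symm_zero H
    -- decompose z
    set a := h z p / h p p with ha
    set b := h (z - a • p) e / h v e with hb
    have h1 : h (z - a • p - b • v) p = 0 := by
      rw [sub_left H, sub_left H, H.smul_left, H.smul_left, hvp, ha]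
      field_simp
      ring
    have h2 : h (z - a • p - b • v) e = 0 := by
      rw [sub_left H, H.smul_left b, hb]
      field_simp
      ring
    obtain ⟨s, t, hst⟩ := key2 H hV hp he hep hxp hxe hee hcon h1 h2
    have h3 : z = a • p + b • v + (s • x + t • e) := by
      rw [← hst]
      abel
    have h4 : h v (x - σ l • e) = 0 := by
      rw [sub_right H, smul_right H, hσ, hl]
      field_simp
      ring
    rw [h3, H.add_left, H.add_left, H.add_left, H.smul_left, H.smul_left, H.smul_left,
      H.smul_left, h4, sub_right H, sub_right H, sub_right H, smul_right H, smul_right H,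
      smul_right H, hpx, hpe, hxx, hxe, hex, hee]
    ring
  exact hcon (σ l) (sub_eq_zero.1 hz)

/-- the standard description of a totally isotropic plane -/
def PlaneData (h : V → V → F) (p : V) (M : Submodule F V) (w u : V) : Prop :=
  h w p = 0 ∧ u ≠ 0 ∧ h u p = 0 ∧ h u u = 0 ∧ h w u = 0 ∧ h w w = - h p p ∧ p + w ∈ M ∧ u ∈ M ∧
    ∀ x ∈ M, ∃ a b : F, x = a • (p + w) + b • u

omit [FiniteDimensional F V] in
theorem iso_add (H : IsHermitian σ h) {p w : V} (hwp : h w p = 0) :
    h (p + w) (p + w) = 0 ↔ h w w = - h p p := by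
  rw [H.add_left, add_right H, add_right H, hwp, symm_zero H hwp]
  constructor
  · intro e
    linear_combination e
  · intro e
    linear_combination e

omit [FiniteDimensional F V] in
theorem planeData_aux (H : IsHermitian σ h) {p : V} (hp : h p p ≠ 0) {M : Submodule F V}
    (hM : TotIso h M) {v m : V} (hv : v ∈ M) (hm : m ∈ M) (hvp : h v p ≠ 0)
    (hsp : ∀ x ∈ M, ∃ a b : F, x = a • v + b • m) (hne : ∀ a : F, m ≠ a • v) :
    ∃ w u, PlaneData h p M w u := by
  set v' := (h p p / h v p) • v with hv'
  have hv'M : v' ∈ M := M.smul_mem _ hv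
  have hv'p : h v' p = h p p := by
    rw [hv', H.smul_left]
    field_simp
  set w := v' - p with hw
  set u := m - (h m p / h p p) • v' with hu
  have hpw : p + w = v' := by rw [hw]; abel
  have hwp : h w p = 0 := by rw [hw, sub_left H, hv'p, sub_self]
  have huM : u ∈ M := M.sub_mem hm (M.smul_mem _ hv'M)
  have hup : h u p = 0 := by
    rw [hu, sub_left H, H.smul_left, hv'p]
    field_simp
    ring
  have huu : h u u = 0 := hM u huM u huM
  have hv'u : h v' u = 0 := hM v' hv'M u huM
  have hu0 : u ≠ 0 := by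
    intro h0
    apply hne ((h m p / h p p) * (h p p / h v p))
    have := sub_eq_zero.1 (hu.symm.trans h0)
    calc m = (h m p / h p p) • v' := this
      _ = (h m p / h p p * (h p p / h v p)) • v := by rw [mul_smul]
  refine ⟨w, u, hwp, hu0, hup, huu, ?_, ?_, ?_, huM, ?_⟩
  · rw [hw, sub_left H, hv'u, symm_zero H hup, sub_zero]
  · rw [← iso_add H hwp, hpw]
    exact hM v' hv'M v' hv'M
  · rw [hpw]
    exact hv'M
  · intro x hx
    obtain ⟨a, b, hab⟩ := hsp x hx
    refine ⟨a * (h v p / h p p) + b * (h m p / h p p), b, ?_⟩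
    have h1 : v = (h v p / h p p) • v' := by
      rw [hv', smul_smul]
      have : h v p / h p p * (h p p / h v p) = 1 := by field_simp
      rw [this, one_smul]
    have h2 : a • v = (a * (h v p / h p p)) • v' := by rw [mul_smul, ← h1]
    have h3 : b • u = b • m - (b * (h m p / h p p)) • v' := by rw [hu, smul_sub, mul_smul]
    rw [hpw, hab, h3, add_smul, ← h2]
    abel

theorem planeData (H : IsHermitian σ h) (hσ : ∀ x, σ (σ x) = x) (hV : finrank F V = 4) {p : V}
    (hp : h p p ≠ 0) {M : Submodule F V}
    (hM : TotIso h M) (hr : finrank F M = 2) : ∃ w u, PlaneData h p M w u := by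
  let b := finBasisOfFinrankEq F M hr
  have hli := b.linearIndependent
  have h0 : ((b 0 : M) : V) ≠ 0 := by
    intro h
    exact b.ne_zero 0 (Subtype.ext h)
  have h1 : ((b 1 : M) : V) ≠ 0 := by
    intro h
    exact b.ne_zero 1 (Subtype.ext h)
  have hsp : ∀ x ∈ M, ∃ α β : F, x = α • (b 0 : V) + β • (b 1 : V) := by
    intro x hx
    refine ⟨b.repr ⟨x, hx⟩ 0, b.repr ⟨x, hx⟩ 1, ?_⟩
    have := congrArg (Subtype.val) (b.sum_repr ⟨x, hx⟩)
    rw [Fin.sum_univ_two] at this
    simpa using this.symm
  have hne01 : ∀ a : F, (b 1 : V) ≠ a • (b 0 : V) := by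
    intro a ha
    have hlin := Fintype.linearIndependent_iff.1 hli ![a, -1] (by
      rw [Fin.sum_univ_two]
      apply Subtype.ext
      simp [ha])
    have := hlin 1
    simp at this
  have hne10 : ∀ a : F, (b 0 : V) ≠ a • (b 1 : V) := by
    intro a ha
    have hlin := Fintype.linearIndependent_iff.1 hli ![-1, a] (by
      rw [Fin.sum_univ_two]
      apply Subtype.ext
      simp [ha])
    have := hlin 0
    simp at this
  by_cases hc0 : h (b 0) p = 0
  · by_cases hc1 : h (b 1) p = 0
    · exfalso
      obtain ⟨a, ha⟩ := key1 H hσ hV hp h0 hc0 (hM _ (b 0).2 _ (b 0).2) hc1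
        (hM _ (b 1).2 _ (b 0).2) (hM _ (b 1).2 _ (b 1).2)
      exact hne01 a ha
    · refine planeData_aux H hp hM (b 1).2 (b 0).2 hc1 ?_ hne10
      intro x hx
      obtain ⟨α, β, h⟩ := hsp x hx
      exact ⟨β, α, by rw [h, add_comm]⟩
  · exact planeData_aux H hp hM (b 0).2 (b 1).2 hc0 hsp hne01

/-- the ovoid inside `p^⊥` -/
def OInf (h : V → V → F) (p : V) : Set (Submodule F V) := {P | IsPoint h P ∧ ∀ x ∈ P, h x p = 0}

/-- the ovoid attached to a non-isotropic `c ⊥ p` -/
def OC (h : V → V → F) (p c : V) : Set (Submodule F V) :=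
  {P | ∃ w, h w p = 0 ∧ h w w = - h p p ∧ (h w c = 0 ∨ ∃ b : F, w = b • c) ∧ P = F ∙ (p + w)}

omit [FiniteDimensional F V] in
theorem totIso_span (H : IsHermitian σ h) {x : V} (hx : h x x = 0) : TotIso h (F ∙ x) := by
  intro y hy z hz
  obtain ⟨a, rfl⟩ := mem_span_singleton.1 hy
  obtain ⟨b, rfl⟩ := mem_span_singleton.1 hz
  rw [H.smul_left, smul_right H, hx, mul_zero, mul_zero]

omit [FiniteDimensional F V] in
theorem isPoint_span (H : IsHermitian σ h) {x : V} (hx0 : x ≠ 0) (hx : h x x = 0) :
    IsPoint h (F ∙ x) := ⟨totIso_span H hx, finrank_span_singleton hx0⟩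

omit [FiniteDimensional F V] in
theorem exists_of_isPoint {P : Submodule F V} (hP : IsPoint h P) :
    ∃ x, x ≠ 0 ∧ h x x = 0 ∧ P = F ∙ x := by
  obtain ⟨v, hv0, hv⟩ := finrank_eq_one_iff'.1 hP.2
  refine ⟨v, fun h0 => hv0 (Subtype.ext h0), hP.1 v v.2 v v.2, ?_⟩
  apply le_antisymm
  · intro x hx
    obtain ⟨c, hc⟩ := hv ⟨x, hx⟩
    rw [mem_span_singleton]
    exact ⟨c, congrArg Subtype.val hc⟩
  · rw [span_singleton_le_iff_mem]
    exact v.2

omit [FiniteDimensional F V] in
theorem add_ne_zero' (H : IsHermitian σ h) {p w : V} (hp : h p p ≠ 0) (hwp : h w p = 0) :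
    p + w ≠ 0 := by
  intro h0
  apply hp
  have : h (p + w) p = 0 := by rw [h0, zero_left H]
  rw [H.add_left, hwp, add_zero] at this
  exact this

theorem ovoid_inf (H : IsHermitian σ h) (hσ : ∀ x, σ (σ x) = x) (hV : finrank F V = 4) {p : V}
    (hp : h p p ≠ 0) : IsOvoid h 2 (OInf h p) := by
  refine ⟨fun P hP => hP.1, fun M hM hr => ?_⟩
  obtain ⟨w, u, hwp, hu0, hup, huu, hwu, hww, hpwM, huM, hsp⟩ := planeData H hσ hV hp hM hr
  refine ⟨F ∙ u, ⟨⟨isPoint_span H hu0 huu, ?_⟩, ?_⟩, ?_⟩
  · intro x hx
    obtain ⟨a, rfl⟩ := mem_span_singleton.1 hx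
    rw [H.smul_left, hup, mul_zero]
  · rw [span_singleton_le_iff_mem]
    exact huM
  · rintro P ⟨⟨hP, hPp⟩, hPM⟩
    obtain ⟨x, hx0, hxx, rfl⟩ := exists_of_isPoint hP
    obtain ⟨a, b, hab⟩ := hsp x (hPM (mem_span_singleton_self x))
    have h1 := hPp x (mem_span_singleton_self x)
    rw [hab, H.add_left, H.smul_left, H.smul_left, H.add_left, hwp, hup] at h1
    have ha : a = 0 := by
      by_contra ha
      exact (mul_ne_zero ha hp) (by linear_combination h1)
    rw [ha, zero_smul, zero_add] at hab
    have hb : b ≠ 0 := by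
      rintro rfl
      rw [zero_smul] at hab
      exact hx0 hab
    rw [hab]
    exact span_singleton_smul_eq (IsUnit.mk0 b hb) u

theorem ovoid_c (H : IsHermitian σ h) (hσ : ∀ x, σ (σ x) = x) (hV : finrank F V = 4) {p c : V}
    (hp : h p p ≠ 0) (hcp : h c p = 0) (hcc : h c c ≠ 0) : IsOvoid h 2 (OC h p c) := by
  refine ⟨?_, fun M hM hr => ?_⟩
  · rintro P ⟨w, hwp, hww, -, rfl⟩
    exact isPoint_span H (add_ne_zero' H hp hwp) ((iso_add H hwp).2 hww)
  obtain ⟨w0, u, hwp, hu0, hup, huu, hwu, hww, hpwM, huM, hsp⟩ := planeData H hσ hV hp hM hr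
  -- existence
  have hex : ∃ w, h w p = 0 ∧ h w w = - h p p ∧ (h w c = 0 ∨ ∃ b : F, w = b • c) ∧ p + w ∈ M := by
    have key : ∀ b : F, h (w0 + b • u) p = 0 ∧ h (w0 + b • u) (w0 + b • u) = - h p p ∧
        p + (w0 + b • u) ∈ M := by
      intro b
      have hm : p + (w0 + b • u) ∈ M := by
        rw [← add_assoc]
        exact M.add_mem hpwM (M.smul_mem _ huM)
      have h1 : h (w0 + b • u) p = 0 := by
        rw [H.add_left, H.smul_left, hwp, hup]
        ring
      exact ⟨h1, (iso_add H h1).1 (hM _ hm _ hm), hm⟩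
    by_cases huc : h u c = 0
    · have hcu : ∀ a : F, c ≠ a • u := by
        rintro a rfl
        apply hcc
        rw [H.smul_left, smul_right H, huu, mul_zero, mul_zero]
      obtain ⟨b, g, hbg⟩ := key2 H hV hp hu0 hup hcp (symm_zero H huc) huu hcu hwp hwu
      refine ⟨w0 + (-g) • u, (key _).1, (key _).2.1, Or.inr ⟨b, ?_⟩, (key _).2.2⟩
      rw [hbg, neg_smul]
      abel
    · refine ⟨w0 + (- h w0 c / h u c) • u, (key _).1, (key _).2.1, Or.inl ?_, (key _).2.2⟩
      rw [H.add_left, H.smul_left]
      field_simp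
      ring
  obtain ⟨w, h1, h2, h3, h4⟩ := hex
  refine ⟨F ∙ (p + w), ⟨⟨w, h1, h2, h3, rfl⟩, ?_⟩, ?_⟩
  · rw [span_singleton_le_iff_mem]
    exact h4
  · rintro P ⟨⟨w', h1', h2', h3', rfl⟩, hPM⟩
    have h4' : p + w' ∈ M := hPM (mem_span_singleton_self _)
    have hww' : h w w' = - h p p := by
      have := hM _ h4 _ h4'
      rw [H.add_left, add_right H, add_right H, h1, symm_zero H h1'] at this
      linear_combination this
    have hw'w : h w' w = - h p p := by
      rw [H.conj w w', hww', map_neg, fixed H]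
    have hneg : - h p p ≠ 0 := neg_ne_zero.2 hp
    suffices hd : w' = w by rw [hd]
    rcases h3 with h3 | ⟨b, hb⟩
    · rcases h3' with h3' | ⟨b', hb'⟩
      · by_contra hne
        have hd0 : w' - w ≠ 0 := sub_ne_zero.2 hne
        have hdp : h (w' - w) p = 0 := by rw [sub_left H, h1, h1', sub_self]
        have hdd : h (w' - w) (w' - w) = 0 := by
          rw [sub_left H, sub_right H, sub_right H, h2, h2', hww', hw'w]
          ring
        have hdc : h (w' - w) c = 0 := by rw [sub_left H, h3, h3', sub_self]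
        have hwd : h w (w' - w) = 0 := by rw [sub_right H, h2, hww', sub_self]
        have hcd : ∀ a : F, c ≠ a • (w' - w) := by
          intro a ha
          apply hcc
          rw [ha, H.smul_left, smul_right H, hdd, mul_zero, mul_zero]
        obtain ⟨b, g, hbg⟩ := key2 H hV hp hd0 hdp hcp (symm_zero H hdc) hdd hcd h1 hwd
        have hb : b = 0 := by
          have := h3
          rw [hbg, H.add_left, H.smul_left, H.smul_left, hdc, mul_zero, add_zero] at this
          exact (mul_eq_zero.1 this).resolve_right hcc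
        rw [hb, zero_smul, zero_add] at hbg
        apply hneg
        rw [← h2, hbg, H.smul_left, smul_right H, hdd, mul_zero, mul_zero]
      · exfalso
        apply hneg
        rw [← hw'w, hb', H.smul_left, symm_zero H h3, mul_zero]
    · rcases h3' with h3' | ⟨b', hb'⟩
      · exfalso
        apply hneg
        rw [← hww', hb, H.smul_left, symm_zero H h3', mul_zero]
      · have hb0 : b ≠ 0 := by
          rintro rfl
          apply hneg
          rw [← h2, hb, zero_smul, zero_left H]
        have e1 : b * (σ b * h c c) = - h p p := by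
          rw [← h2, hb, H.smul_left, smul_right H]
        have e2 : b * (σ b' * h c c) = - h p p := by
          rw [← hww', hb, hb', H.smul_left, smul_right H]
        have e3 : σ b * h c c = σ b' * h c c := mul_left_cancel₀ hb0 (e1.trans e2.symm)
        have e4 : σ b = σ b' := mul_right_cancel₀ hcc e3
        have e5 : b = b' := by rw [← hσ b, e4, hσ]
        rw [hb, hb', e5]

theorem cond_unique (H : IsHermitian σ h) (hσ : ∀ x, σ (σ x) = x) (hV : finrank F V = 4)
    {p e c w : V} (hp : h p p ≠ 0) (he : e ≠ 0) (hep : h e p = 0) (hee : h e e = 0)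
    (hcp : h c p = 0) (hce : h c e = 0) (hcc : h c c ≠ 0) (hwp : h w p = 0) (hww : h w w ≠ 0) :
    ∃! s : F, (h w (c + s • e) = 0 ∨ ∃ b : F, w = b • (c + s • e)) := by
  have hec : h e c = 0 := symm_zero H hce
  by_cases hwe : h w e = 0
  · have hca : ∀ a : F, c ≠ a • e := by
      rintro a rfl
      apply hcc
      rw [H.smul_left, smul_right H, hee, mul_zero, mul_zero]
    obtain ⟨b, g, hbg⟩ := key2 H hV hp he hep hcp hce hee hca hwp hwe
    have hb : b ≠ 0 := by
      rintro rfl
      apply hww
      rw [hbg, zero_smul, zero_add, H.smul_left, smul_right H, hee, mul_zero, mul_zero]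
    have hwc : h w c = b * h c c := by
      rw [hbg, H.add_left, H.smul_left, H.smul_left, hec, mul_zero, add_zero]
    refine ⟨g / b, Or.inr ⟨b, ?_⟩, ?_⟩
    · rw [hbg, smul_add, smul_smul, mul_div_cancel₀ _ hb]
    · rintro s (hs | ⟨b', hb'⟩)
      · exfalso
        rw [add_right H, smul_right H, hwe, mul_zero, add_zero, hwc] at hs
        exact mul_ne_zero hb hcc hs
      · have h1 : h w c = b' * h c c := by
          rw [hb', H.smul_left, H.add_left, H.smul_left, hec, mul_zero, add_zero]
        have h2 : b' = b := mul_right_cancel₀ hcc (h1.symm.trans hwc)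
        rw [h2, smul_add, smul_smul, hbg] at hb'
        have h3 : g • e = (b * s) • e := add_left_cancel hb'
        have h4 : (g - b * s) • e = 0 := by rw [sub_smul, h3, sub_self]
        have h5 := (smul_eq_zero.1 h4).resolve_right he
        rw [eq_div_iff hb]
        linear_combination -h5
  · refine ⟨σ (- h w c / h w e), Or.inl ?_, ?_⟩
    · rw [add_right H, smul_right H, hσ]
      field_simp
      ring
    · rintro s (hs | ⟨b', hb'⟩)
      · rw [add_right H, smul_right H] at hs
        have : σ s = - h w c / h w e := by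
          rw [eq_div_iff hwe]
          linear_combination hs
        rw [← this, hσ]
      · exfalso
        apply hwe
        rw [hb', H.smul_left, H.add_left, H.smul_left, hce, hee]
        ring

theorem partition_core (H : IsHermitian σ h) (hσ : ∀ x, σ (σ x) = x) (hV : finrank F V = 4)
    {p e c : V} (hp : h p p ≠ 0) (he : e ≠ 0) (hep : h e p = 0) (hee : h e e = 0)
    (hcp : h c p = 0) (hce : h c e = 0) (hcc : h c c ≠ 0) :
    IsOvoidPartition h 2 ({OInf h p} ∪ Set.range (fun s : F => OC h p (c + s • e))) := by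
  have hec : h e c = 0 := symm_zero H hce
  constructor
  · rintro O (hO | ⟨s, rfl⟩)
    · rw [Set.mem_singleton_iff] at hO
      rw [hO]
      exact ovoid_inf H hσ hV hp
    · apply ovoid_c H hσ hV hp
      · rw [H.add_left, H.smul_left, hcp, hep, mul_zero, add_zero]
      · rw [H.add_left, H.smul_left, add_right H, add_right H, smul_right H, smul_right H, hec,
          hee, hce]
        simpa using hcc
  · intro P hP
    obtain ⟨x, hx0, hxx, rfl⟩ := exists_of_isPoint hP
    by_cases hxp : h x p = 0
    · refine ⟨OInf h p, ⟨Or.inl rfl, hP, ?_⟩, ?_⟩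
      · intro y hy
        obtain ⟨a, rfl⟩ := mem_span_singleton.1 hy
        rw [H.smul_left, hxp, mul_zero]
      · rintro O ⟨hO | ⟨s, rfl⟩, hPO⟩
        · exact hO
        · exfalso
          obtain ⟨w, hwp, -, -, hw⟩ := hPO
          have hxm : x ∈ (F ∙ (p + w)) := by
            rw [← hw]
            exact mem_span_singleton_self x
          obtain ⟨a, ha⟩ := mem_span_singleton.1 hxm
          rw [← ha, H.smul_left, H.add_left, hwp, add_zero] at hxp
          have ha0 : a = 0 := (mul_eq_zero.1 hxp).resolve_right hp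
          rw [ha0, zero_smul] at ha
          exact hx0 ha.symm
    · set w := (h p p / h x p) • x - p with hw
      have hpw : p + w = (h p p / h x p) • x := by rw [hw]; abel
      have hwp : h w p = 0 := by
        rw [hw, sub_left H, H.smul_left]
        field_simp
        ring
      have hww : h w w = - h p p := by
        rw [← iso_add H hwp, hpw, H.smul_left, smul_right H, hxx, mul_zero, mul_zero]
      have hunit : IsUnit (h p p / h x p) := IsUnit.mk0 _ (div_ne_zero hp hxp)
      have hspan : (F ∙ x) = F ∙ (p + w) := by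
        rw [hpw, span_singleton_smul_eq hunit x]
      obtain ⟨s, hs, hsu⟩ := cond_unique H hσ hV hp he hep hee hcp hce hcc hwp
        (by rw [hww]; exact neg_ne_zero.2 hp)
      refine ⟨OC h p (c + s • e), ⟨Or.inr ⟨s, rfl⟩, w, hwp, hww, hs, hspan⟩, ?_⟩
      rintro O ⟨hO | ⟨s', rfl⟩, hPO⟩
      · exfalso
        rw [Set.mem_singleton_iff] at hO
        rw [hO] at hPO
        exact hxp (hPO.2 x (mem_span_singleton_self x))
      · obtain ⟨w', hwp', hww', hs', hw'⟩ := hPO
        have hmem : p + w' ∈ (F ∙ (p + w)) := by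
          rw [← hspan, hw']
          exact mem_span_singleton_self _
        obtain ⟨a, ha⟩ := mem_span_singleton.1 hmem
        have h1 : a * h p p = h p p := by
          have := congrArg (fun z => h z p) ha
          simp only [H.smul_left, H.add_left, hwp, hwp', add_zero] at this
          exact this
        have ha1 : a = 1 := by
          have : (a - 1) * h p p = 0 := by linear_combination h1
          exact sub_eq_zero.1 ((mul_eq_zero.1 this).resolve_right hp)
        rw [ha1, one_smul] at ha
        have hww2 : w = w' := add_left_cancel ha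
        rw [← hww2] at hs'
        have : s' = s := hsu s' hs'
        simp only [this]

/-- four dimensions, three linear conditions -/
theorem exists_orth3 (H : IsHermitian σ h) (hV : finrank F V = 4) (x y z : V) :
    ∃ v, v ≠ 0 ∧ h v x = 0 ∧ h v y = 0 ∧ h v z = 0 := by
  have hk : LinearMap.ker ((lin H x).prod ((lin H y).prod (lin H z))) ≠ ⊥ := by
    apply LinearMap.ker_ne_bot_of_finrank_lt
    rw [hV, finrank_prod, finrank_prod, finrank_self]
    norm_num
  obtain ⟨v, hv, hv0⟩ := Submodule.exists_mem_ne_zero_of_ne_bot hk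
  rw [LinearMap.mem_ker] at hv
  have h1 : (h v x, (h v y, h v z)) = (0, (0, 0)) := hv
  simp only [Prod.mk.injEq] at h1
  exact ⟨v, hv0, h1.1, h1.2.1, h1.2.2⟩

theorem finrank_le_two (H : IsHermitian σ h) (hσ : ∀ x, σ (σ x) = x) (hV : finrank F V = 4)
    {p : V} (hp : h p p ≠ 0) (N : Submodule F V) (hN : TotIso h N) : finrank F N ≤ 2 := by
  by_contra hcon
  push Not at hcon
  have aux : ∀ x y : V, ∃ v ∈ N, v ≠ 0 ∧ h v x = 0 ∧ h v y = 0 := by
    intro x y
    have hk : LinearMap.ker (((lin H x).prod (lin H y)).comp N.subtype) ≠ ⊥ := by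
      apply LinearMap.ker_ne_bot_of_finrank_lt
      rw [finrank_prod, finrank_self]
      omega
    obtain ⟨v, hv, hv0⟩ := Submodule.exists_mem_ne_zero_of_ne_bot hk
    rw [LinearMap.mem_ker] at hv
    have h1 : (h v x, h v y) = (0, 0) := hv
    simp only [Prod.mk.injEq] at h1
    exact ⟨v, v.2, fun h0 => hv0 (Subtype.ext h0), h1.1, h1.2⟩
  obtain ⟨u, huN, hu0, hup, -⟩ := aux p p
  obtain ⟨y, hy⟩ : ∃ y, h u y ≠ 0 := by
    by_contra hc
    push Not at hc
    exact hu0 (H.nondeg u hc)
  obtain ⟨u', hu'N, hu'0, hu'p, hu'y⟩ := aux p y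
  obtain ⟨a, ha⟩ := key1 H hσ hV hp hu0 hup (hN u huN u huN) hu'p (hN u' hu'N u huN)
    (hN u' hu'N u' hu'N)
  rw [ha, H.smul_left] at hu'y
  have ha0 := (mul_eq_zero.1 hu'y).resolve_right hy
  rw [ha0, zero_smul] at ha
  exact hu'0 ha

theorem main_core (H : IsHermitian σ h) (hσ : ∀ x, σ (σ x) = x) (hV : finrank F V = 4)
    (hne : ∃ a : F, a + σ a ≠ 0)
    (hnorm : ∀ y : F, y ≠ 0 → σ y = y → ∃ a, a * σ a = y) :
    HasWittIndex h 2 ∧ ∃ S, IsOvoidPartition h 2 S := by
  -- a non-isotropic vector
  obtain ⟨p, hp⟩ : ∃ p, h p p ≠ 0 := by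
    by_contra hcon
    push Not at hcon
    have hanti : ∀ x y, h x y + h y x = 0 := by
      intro x y
      have := hcon (x + y)
      rw [H.add_left, add_right H, add_right H, hcon x, hcon y] at this
      linear_combination this
    have : Nontrivial V := by
      apply nontrivial_of_finrank_pos (R := F)
      omega
    obtain ⟨x, hx⟩ := exists_ne (0 : V)
    obtain ⟨y, hy⟩ : ∃ y, h x y ≠ 0 := by
      by_contra hc
      push Not at hc
      exact hx (H.nondeg x hc)
    obtain ⟨a, ha⟩ := hne
    apply ha
    have h1 := hanti ((a / h x y) • x) y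
    rw [H.conj ((a / h x y) • x) y, H.smul_left, div_mul_cancel₀ _ hy] at h1
    exact h1
  -- an isotropic vector orthogonal to `p`
  obtain ⟨e, he, hep, hee⟩ : ∃ e, e ≠ 0 ∧ h e p = 0 ∧ h e e = 0 := by
    obtain ⟨x, hx0, hxp, -⟩ := exists_orth3 H hV p p p
    by_cases hxx : h x x = 0
    · exact ⟨x, hx0, hxp, hxx⟩
    obtain ⟨y, hy0, hyp, hyx, -⟩ := exists_orth3 H hV p x x
    by_cases hyy : h y y = 0
    · exact ⟨y, hy0, hyp, hyy⟩
    obtain ⟨a, ha⟩ := hnorm (- h y y / h x x) (div_ne_zero (neg_ne_zero.2 hyy) hxx)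
      (by rw [map_div₀, map_neg, fixed H, fixed H])
    refine ⟨a • x + y, ?_, ?_, ?_⟩
    · intro h0
      apply hyy
      have := zero_left H y
      rw [← h0, H.add_left, H.smul_left, symm_zero H hyx, mul_zero, zero_add] at this
      exact this
    · rw [H.add_left, H.smul_left, hxp, hyp, mul_zero, add_zero]
    · rw [H.add_left, H.smul_left, add_right H, add_right H, smul_right H, smul_right H, hyx,
        symm_zero H hyx, mul_zero, add_zero, zero_add]
      have : a * (σ a * h x x) = - h y y := by
        rw [← mul_assoc, ha]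
        field_simp
      rw [this]
      ring
  -- a vector orthogonal to `p` and `e` and not proportional to `e`
  obtain ⟨y, hy⟩ : ∃ y, h e y ≠ 0 := by
    by_contra hc
    push Not at hc
    exact he (H.nondeg e hc)
  obtain ⟨c, hc0, hcp, hce, hcy⟩ := exists_orth3 H hV p e y
  have hcc : h c c ≠ 0 := by
    intro hcc
    obtain ⟨a, ha⟩ := key1 H hσ hV hp he hep hee hcp hce hcc
    rw [ha, H.smul_left] at hcy
    have ha0 := (mul_eq_zero.1 hcy).resolve_right hy
    rw [ha0, zero_smul] at ha
    exact hc0 ha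
  refine ⟨⟨?_, fun U hU => finrank_le_two H hσ hV hp U hU⟩, _,
    partition_core H hσ hV hp he hep hee hcp hce hcc⟩
  obtain ⟨a, ha⟩ := hnorm (- h p p / h c c) (div_ne_zero (neg_ne_zero.2 hp) hcc)
    (by rw [map_div₀, map_neg, fixed H, fixed H])
  have hwp : h (a • c) p = 0 := by rw [H.smul_left, hcp, mul_zero]
  have hww : h (a • c) (a • c) = - h p p := by
    rw [H.smul_left, smul_right H, ← mul_assoc, ha]
    field_simp
  have hvv := (iso_add H hwp).2 hww
  have hve : h (p + a • c) e = 0 := by
    rw [H.add_left, H.smul_left, symm_zero H hep, hce, mul_zero, add_zero]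
  have hind : LinearIndependent F ![p + a • c, e] := by
    rw [LinearIndependent.pair_iff]
    intro s t hst
    have hs : s = 0 := by
      have := congrArg (fun z => h z p) hst
      simp only [H.add_left, H.smul_left, hcp, hep, zero_left H, mul_zero, add_zero] at this
      exact (mul_eq_zero.1 this).resolve_right hp
    refine ⟨hs, ?_⟩
    rw [hs, zero_smul, zero_add] at hst
    exact (smul_eq_zero.1 hst).resolve_right he
  refine ⟨span F (Set.range ![p + a • c, e]), ?_, ?_⟩
  · intro x hx z hz
    rw [Matrix.range_cons, Matrix.range_cons, Matrix.range_empty, Set.union_empty,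
      Set.singleton_union, mem_span_pair] at hx hz
    obtain ⟨a1, b1, rfl⟩ := hx
    obtain ⟨a2, b2, rfl⟩ := hz
    rw [H.add_left, H.smul_left, H.smul_left b1, add_right H, add_right H, smul_right H,
      smul_right H, smul_right H, smul_right H, hvv, hve, symm_zero H hve, hee]
    ring
  · rw [finrank_span_eq_card hind]
    simp

end core

section finite

variable {F : Type*} [Field F] [Fintype F]

theorem frob_props (q0 : ℕ) (hF : Fintype.card F = q0 ^ 2) :
    2 ≤ q0 ∧ ∃ σ : F →+* F, (∀ x, σ x = x ^ q0) ∧ ∀ x, σ (σ x) = x := by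
  have h2 : 1 < Fintype.card F := Fintype.one_lt_card
  have hq2 : 2 ≤ q0 := by
    by_contra hcon
    have : q0 ^ 2 ≤ 1 := by
      have : q0 ≤ 1 := by omega
      calc q0 ^ 2 ≤ 1 ^ 2 := Nat.pow_le_pow_left this 2
        _ = 1 := by norm_num
    omega
  refine ⟨hq2, ?_⟩
  obtain ⟨p, hp⟩ := CharP.exists F
  obtain ⟨n, hpp, hn⟩ := FiniteField.card F p
  have hdvd : q0 ∣ p ^ (n : ℕ) := by
    rw [← hn, hF]
    exact dvd_pow_self q0 two_ne_zero
  obtain ⟨m, -, hm⟩ := (Nat.dvd_prime_pow hpp).1 hdvd
  haveI : ExpChar F p := ExpChar.prime hpp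
  refine ⟨iterateFrobenius F p m, fun x => ?_, fun x => ?_⟩
  · rw [iterateFrobenius_def, hm]
  · rw [iterateFrobenius_def, iterateFrobenius_def, ← hm, ← pow_mul, ← sq, ← hF]
    exact FiniteField.pow_card x

theorem norm_surj (q0 : ℕ) (hF : Fintype.card F = q0 ^ 2) (hq : 2 ≤ q0) (y : F) (hy : y ≠ 0)
    (hyq : y ^ q0 = y) : ∃ a : F, a * a ^ q0 = y := by
  classical
  obtain ⟨g, hg⟩ := IsCyclic.exists_generator (α := Fˣ)
  obtain ⟨k, hk⟩ := Subgroup.mem_zpowers_iff.1 (hg (Units.mk0 y hy))
  obtain ⟨r, rfl⟩ : ∃ r, q0 = r + 1 := ⟨q0 - 1, by omega⟩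
  have hcard : Fintype.card Fˣ = (r + 2) * r := by
    rw [Fintype.card_units, hF]
    have : (r + 1) ^ 2 = (r + 2) * r + 1 := by ring
    rw [this, Nat.add_sub_cancel]
  have hord : orderOf g = (r + 2) * r := by
    rw [orderOf_eq_card_of_forall_mem_zpowers hg, Nat.card_eq_fintype_card, hcard]
  have hu : (Units.mk0 y hy) ^ r = 1 := by
    apply Units.ext
    rw [Units.val_pow_eq_pow_val, Units.val_mk0, Units.val_one]
    have : y ^ r * y = 1 * y := by rw [← pow_succ, hyq, one_mul]
    exact mul_right_cancel₀ hy this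
  have h1 : g ^ (k * r) = 1 := by
    rw [zpow_mul, hk]
    exact_mod_cast hu
  have h2 : ((orderOf g : ℕ) : ℤ) ∣ k * r := orderOf_dvd_iff_zpow_eq_one.2 h1
  rw [hord] at h2
  have hr : (r : ℤ) ≠ 0 := by
    have : 1 ≤ r := by omega
    exact_mod_cast (by omega : r ≠ 0)
  have h3 : ((r + 2 : ℕ) : ℤ) ∣ k := by
    rw [Nat.cast_mul] at h2
    exact (mul_dvd_mul_iff_right hr).1 h2
  obtain ⟨j, hj⟩ := h3
  refine ⟨((g ^ j : Fˣ) : F), ?_⟩
  have h4 : (g ^ j) ^ (r + 2) = Units.mk0 y hy := by
    rw [← hk, hj, ← zpow_natCast, ← zpow_mul, mul_comm]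
  have h5 := congrArg Units.val h4
  rw [Units.val_pow_eq_pow_val, Units.val_mk0] at h5
  rw [← h5]
  ring

theorem exists_trace_ne (q0 : ℕ) (hF : Fintype.card F = q0 ^ 2) (hq : 2 ≤ q0) :
    ∃ a : F, a + a ^ q0 ≠ 0 := by
  classical
  by_contra hcon
  push Not at hcon
  have h1 : (1 : F) + 1 = 0 := by simpa using hcon 1
  have hall : ∀ a : F, a ^ q0 = a := by
    intro a
    have h2 := hcon a
    have h3 : a + a = 0 := by
      have : a + a = a * (1 + 1) := by ring
      rw [this, h1, mul_zero]
    exact add_left_cancel (h2.trans h3.symm)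
  obtain ⟨g, hg⟩ := IsCyclic.exists_generator (α := Fˣ)
  have hord : orderOf g = q0 ^ 2 - 1 := by
    rw [orderOf_eq_card_of_forall_mem_zpowers hg, Nat.card_eq_fintype_card, Fintype.card_units,
      hF]
  obtain ⟨r, rfl⟩ : ∃ r, q0 = r + 1 := ⟨q0 - 1, by omega⟩
  have hgr : g ^ r = 1 := by
    apply Units.ext
    rw [Units.val_pow_eq_pow_val, Units.val_one]
    have h2 : (g : F) ^ r * g = 1 * g := by rw [← pow_succ, hall, one_mul]
    exact mul_right_cancel₀ g.ne_zero h2
  have h4 := orderOf_dvd_of_pow_eq_one hgr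
  rw [hord] at h4
  have h5 := Nat.le_of_dvd (by omega) h4
  have h6 : (r + 1) ^ 2 = r * r + 2 * r + 1 := by ring
  rw [h6] at h5
  have : 1 ≤ r * r := Nat.one_le_iff_ne_zero.2 (by
    have : r ≠ 0 := by omega
    exact mul_ne_zero this this)
  omega

end finite

/-- **Main theorem.** For every `q0` and every field `F` with `q0 ^ 2` elements, the polar space
of every non-degenerate Hermitian form on a four-dimensional space over `F` (the polar space
`PSU(4, q0)`) has Witt index two and its point set can be partitioned into ovoids. -/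
theorem result (q0 : ℕ) (F : Type*) [Field F] [Fintype F] (hF : Fintype.card F = q0 ^ 2)
    (V : Type*) [AddCommGroup V] [Module F V] (hV : finrank F V = 4)
    (h : V → V → F) (H : IsHermitian (fun x => x ^ q0) h) :
    HasWittIndex h 2 ∧ ∃ S, IsOvoidPartition h 2 S := by
  obtain ⟨hq, σ, hσ, hσσ⟩ := frob_props q0 hF
  haveI : FiniteDimensional F V := FiniteDimensional.of_finrank_pos (by omega)
  have hfun : (fun x : F => x ^ q0) = σ := by
    funext x
    exact (hσ x).symm
  rw [hfun] at H
  refine main_core H hσσ hV ?_ ?_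
  · obtain ⟨a, ha⟩ := exists_trace_ne q0 hF hq
    exact ⟨a, by rwa [hσ]⟩
  · intro y hy hyy
    rw [hσ] at hyy
    obtain ⟨a, ha⟩ := norm_surj q0 hF hq y hy hyy
    exact ⟨a, by rwa [hσ]⟩

end Pool.Agent.Results.MP_017654_co.UnitaryPartition
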